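import Pool.Agent.Helper34.CR.Resolution

/-!
# M10 of `MP_79ec0d_co`: two sheets joined along a walk
-/

open Equiv Equiv.Perm

namespace Helper5.CR

namespace Lift

/-- the copy of `a` in the sheet `b` -/
def sh {A : Type} : Bool → A → A ⊕ A
  | true, a => Sum.inl a
  | false, a => Sum.inr a

lemma sh_inj {A : Type} {b b' : Bool} {a a' : A} : sh b a = sh b' a' ↔ b = b' ∧ a = a' := by
  cases b <;> cases b' <;> simp [sh]

lemma exists_sh {A : Type} (x : A ⊕ A) : ∃ b a, x = sh b a := by
  rcases x with a | a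
  · exact ⟨true, a, rfl⟩
  · exact ⟨false, a, rfl⟩

lemma sumCongr_sh {A : Type} (α : Perm A) (b : Bool) (a : A) :
    (Equiv.sumCongr α α : Perm (A ⊕ A)) (sh b a) = sh b (α a) := by
  cases b <;> rfl

lemma sameCycle_sh {D : Type} [Fintype D] (σ : Perm D) (b b' : Bool) (d d' : D) :
    SameCycle (Equiv.sumCongr σ σ : Perm (D ⊕ D)) (sh b d) (sh b' d') ↔
      b = b' ∧ σ.SameCycle d d' := by
  have h : SameCycle (Equiv.sumCongr σ σ : Perm (D ⊕ D)) (sh b d) (sh b' d') ↔
      sumSetoid (SameCycle.setoid σ) (SameCycle.setoid σ) (sh b d) (sh b' d') := by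
    rw [← setoid_sumCongr]; rfl
  rw [h]
  cases b <;> cases b'
  · show σ.SameCycle d d' ↔ _
    simp
  · show False ↔ _
    simp
  · show False ↔ _
    simp
  · show σ.SameCycle d d' ↔ _
    simp

open Classical in
/-- the point `x` of the sheet `b`; the points of the window `W` are all identified -/
noncomputable def lpt {X : Type} (W : X → Prop) (b : Bool) (x : X) : Option (X ⊕ X) :=
  if W x then none else some (sh b x)

/-- the point at which a dart is attached -/
noncomputable def ptl {D X : Type} (pt : D → X) (W : X → Prop) : D ⊕ D → Option (X ⊕ X)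
  | Sum.inl d => lpt W true (pt d)
  | Sum.inr d => lpt W false (pt d)

lemma ptl_sh {D X : Type} (pt : D → X) (W : X → Prop) (b : Bool) (d : D) :
    ptl pt W (sh b d) = lpt W b (pt d) := by
  cases b <;> rfl

lemma lp_eq_iff {X : Type} (W : X → Prop) (b b' : Bool) (x x' : X) :
    lpt W b x = lpt W b' x' ↔ (W x ∧ W x') ∨ (¬ W x ∧ b = b' ∧ x = x') := by
  unfold lpt
  by_cases h : W x <;> by_cases h' : W x' <;> simp [h, h', sh_inj]
  · rintro - rfl
    exact absurd h' h

lemma exists_join {D X : Type} [Fintype D] [DecidableEq D] {σ α : Perm D} (hp : Planar σ α)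
    (hα : ∀ d, α (α d) = d) (pt : D → X) (hpt : ∀ d d', pt d = pt d' ↔ σ.SameCycle d d')
    (w : List D) (x y : X) (hw : IsWalk pt α x y w) (W : X → Prop)
    (hW : ∀ x, W x ↔ ∃ c ∈ w, x = pt c ∨ x = pt (α c)) :
    ∃ τ : Perm (D ⊕ D), Planar τ (Equiv.sumCongr α α) ∧
      ∀ a a', ptl pt W a = ptl pt W a' ↔ τ.SameCycle a a' := by
  obtain ⟨σ', hσ', hs⟩ := exists_merge_walk hp hα pt hpt w x y hw
  have hs' : ∀ d d', σ'.SameCycle d d' ↔ (pt d = pt d' ∨ (W (pt d) ∧ W (pt d'))) := by
    intro d d'
    rw [hs, hW, hW]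
  cases w with
  | nil =>
    have hW' : ∀ x, ¬ W x := by
      intro x hx
      rw [hW] at hx
      obtain ⟨c, hc, -⟩ := hx
      simp at hc
    refine ⟨Equiv.sumCongr σ' σ', hσ'.sum hσ', fun a a' => ?_⟩
    obtain ⟨b, d, rfl⟩ := exists_sh a
    obtain ⟨b', d', rfl⟩ := exists_sh a'
    rw [ptl_sh, ptl_sh, lp_eq_iff, sameCycle_sh, hs']
    simp [hW']
  | cons c w =>
    have hc : W (pt c) := by
      rw [hW]
      exact ⟨c, List.mem_cons_self, Or.inl rfl⟩
    have hcomp : ¬ comp (Equiv.sumCongr σ' σ' : Perm (D ⊕ D)) (Equiv.sumCongr α α)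
        (sh true c) (sh false c) :=
      comp_sum (D := D) (D' := D) (σ := σ') (α := α) (σ' := σ') (α' := α) c c
    have hcyc : ¬ SameCycle (Equiv.sumCongr σ' σ' : Perm (D ⊕ D)) (sh true c) (sh false c) := by
      rw [sameCycle_sh]
      simp
    refine ⟨Equiv.sumCongr σ' σ' * swap (sh true c) (sh false c),
      (hσ'.sum hσ').merge_comp hcomp, fun a a' => ?_⟩
    obtain ⟨b, d, rfl⟩ := exists_sh a
    obtain ⟨b', d', rfl⟩ := exists_sh a'
    rw [sameCycle_mul_swap hcyc, ptl_sh, ptl_sh, lp_eq_iff]
    simp only [sameCycle_sh, hs', hc, and_true]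
    have e1 : ∀ d : D, (pt d = pt c ∨ W (pt d)) ↔ W (pt d) := by
      intro d
      constructor
      · rintro (h | h)
        · rw [h]; exact hc
        · exact h
      · exact Or.inr
    simp only [e1]
    constructor
    · rintro (⟨h1, h2⟩ | ⟨h1, h2, h3⟩)
      · cases b <;> cases b' <;> simp [h1, h2]
      · exact Or.inl ⟨h2, Or.inl h3⟩
    · rintro (⟨h1, h2 | h2⟩ | ⟨⟨h1, h2⟩, h3, h4⟩ | ⟨⟨h1, h2⟩, h3, h4⟩)
      · by_cases h : W (pt d)
        · exact Or.inl ⟨h, h2 ▸ h⟩
        · exact Or.inr ⟨h, h1, h2⟩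
      · exact Or.inl h2
      · exact Or.inl ⟨h2, h4⟩
      · exact Or.inl ⟨h2, h4⟩

lemma walk_lift {D X : Type} {pt : D → X} {α : Perm D} (W : X → Prop) (b : Bool) :
    ∀ {l : List D} {x y : X}, IsWalk pt α x y l →
      IsWalk (ptl pt W) (Equiv.sumCongr α α) (lpt W b x) (lpt W b y) (l.map (sh b))
  | [], x, y, h => by
    have h' : x = y := h
    subst h'
    exact rfl
  | d :: l, x, y, h => by
    refine ⟨?_, ?_⟩
    · rw [ptl_sh, h.1]
    · rw [sumCongr_sh, ptl_sh]
      exact walk_lift W b h.2

lemma isWalk_join {D X : Type} {pt : D → X} {α : Perm D} :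
    ∀ {l₁ : List D} {x y z : X} {l₂ : List D}, IsWalk pt α x y l₁ → IsWalk pt α y z l₂ →
      IsWalk pt α x z (l₁ ++ l₂)
  | [], x, y, z, l₂, h1, h2 => by
    have : x = y := h1
    subst this
    exact h2
  | d :: l, x, y, z, l₂, h1, h2 => ⟨h1.1, isWalk_join h1.2 h2⟩

lemma isWalk_split {D X : Type} {pt : D → X} {α : Perm D} :
    ∀ {l₁ l₂ : List D} {x z : X}, IsWalk pt α x z (l₁ ++ l₂) →
      ∃ y, IsWalk pt α x y l₁ ∧ IsWalk pt α y z l₂
  | [], l₂, x, z, h => ⟨x, rfl, h⟩
  | d :: l, l₂, x, z, h => by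
    obtain ⟨y, h1, h2⟩ := isWalk_split h.2
    exact ⟨y, ⟨h.1, h1⟩, h2⟩

lemma count_map_sh {A : Type} [BEq A] [LawfulBEq A] [BEq (A ⊕ A)] [LawfulBEq (A ⊕ A)]
    (b c : Bool) (a : A) (l : List A) :
    (l.map (sh c)).count (sh b a) = if c = b then l.count a else 0 := by
  induction l with
  | nil => simp
  | cons d l ih =>
    rw [List.map_cons, List.count_cons, ih, List.count_cons]
    by_cases h : c = b
    · subst h
      have e : (sh c d == sh c a) = (d == a) := by
        rw [Bool.eq_iff_iff, beq_iff_eq, beq_iff_eq, sh_inj]; simp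
      rw [e, if_pos rfl, if_pos rfl]
    · simp [sh_inj, h]

lemma count_none {D X : Type} [BEq (Option (X ⊕ X))] [LawfulBEq (Option (X ⊕ X))]
    (pt : D → X) (W : X → Prop) (q : D → Prop) [DecidablePred q] (hq : ∀ d, q d ↔ W (pt d))
    (c : Bool) (l : List D) :
    ((l.map (sh c)).map (ptl pt W)).count none = (l.filter (fun d => q d)).length := by
  induction l with
  | nil => simp
  | cons d l ih =>
    rw [List.map_cons, List.map_cons, List.count_cons, ih, List.filter_cons, ptl_sh, lpt]
    by_cases h : W (pt d)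
    · simp [h, (hq d).2 h]
    · have : ¬ q d := fun h' => h ((hq d).1 h')
      simp [h, this]

lemma count_some {D X : Type} [BEq (Option (X ⊕ X))] [LawfulBEq (Option (X ⊕ X))]
    [BEq X] [LawfulBEq X] (pt : D → X) (W : X → Prop) (b c : Bool) (x : X) (hx : ¬ W x)
    (l : List D) :
    ((l.map (sh c)).map (ptl pt W)).count (some (sh b x)) =
      if c = b then (l.map pt).count x else 0 := by
  induction l with
  | nil => simp
  | cons d l ih =>
    rw [List.map_cons, List.map_cons, List.count_cons, ih, List.map_cons, List.count_cons,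
      ptl_sh, lpt]
    by_cases h : W (pt d)
    · have : pt d ≠ x := fun h' => hx (h' ▸ h)
      simp [h, this]
    · rw [if_neg h]
      by_cases h2 : c = b
      · subst h2
        have e : (some (sh c (pt d)) == some (sh c x)) = (pt d == x) := by
          rw [Bool.eq_iff_iff, beq_iff_eq, beq_iff_eq, Option.some_inj, sh_inj]; simp
        rw [e, if_pos rfl, if_pos rfl]
      · simp [sh_inj, h2]

lemma count_some_W {D X : Type} [BEq (Option (X ⊕ X))] [LawfulBEq (Option (X ⊕ X))]
    (pt : D → X) (W : X → Prop) (b c : Bool) (x : X) (hx : W x) (l : List D) :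
    ((l.map (sh c)).map (ptl pt W)).count (some (sh b x)) = 0 := by
  rw [List.count_eq_zero]
  intro h
  rw [List.map_map, List.mem_map] at h
  obtain ⟨d, -, hd⟩ := h
  rw [Function.comp_apply, ptl_sh, lpt] at hd
  by_cases h' : W (pt d)
  · simp [h'] at hd
  · rw [if_neg h'] at hd
    have := (sh_inj.1 (Option.some.inj hd)).2
    exact h' (this ▸ hx)

lemma sum_subtype_le {E : Type} [Fintype E] (S : E → Prop) [Fintype {e // S e}] (f : E → ℕ) :
    ∑ e : {e // S e}, f e.1 ≤ ∑ e, f e := by
  classical
  calc ∑ e : {e // S e}, f e.1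
      = ∑ e ∈ (Finset.univ : Finset {e // S e}).map (Function.Embedding.subtype S), f e := by
        rw [Finset.sum_map]; rfl
    _ ≤ ∑ e, f e := Finset.sum_le_sum_of_subset (Finset.subset_univ _)

end Lift

open Lift

variable {V E : Type} [Fintype E] {src tgt : E → V}

open Classical in
/-- M10 (two sheets joined along a walk `w`).  `S` is the set of edges to be drawn; the points of
the walk `w` are not vertices and its segments are not used by edges of `S`.  The edge `e ∈ S` is
either drawn in the sheet `col (src e) = col (tgt e)`, or its route is cut at a point of `w` into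
`p₁ e ++ p₂ e`, the two parts being drawn in the sheets `col (src e)` and `col (tgt e)`. -/
theorem crM_lift (P : PreDrawing src tgt) (hs : P.Simple)
    (col : V → Bool) (S : E → Prop) (w : List P.D) (x₀ y₀ : P.X)
    (hw : IsWalk P.pt P.α x₀ y₀ w)
    (hwl : ∀ c ∈ w, ∀ v, P.pt c ≠ P.loc v ∧ P.pt (P.α c) ≠ P.loc v)
    (hne : ∀ e, S e → src e ≠ tgt e)
    (hself : ∀ e, S e → ((P.route e).tail.map P.pt).Nodup)
    (honce : ∀ e, S e → ∀ d ∈ (P.route e).tail, ∀ d' ∈ (P.route e).tail,
      (∃ c ∈ w, P.pt d = P.pt c ∨ P.pt d = P.pt (P.α c)) →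
      (∃ c ∈ w, P.pt d' = P.pt c ∨ P.pt d' = P.pt (P.α c)) → d = d')
    (p₁ p₂ : E → List P.D) (hp : ∀ e, S e → P.route e = p₁ e ++ p₂ e)
    (hcase : ∀ e, S e → (p₂ e = [] ∧ col (src e) = col (tgt e)) ∨
      (p₁ e ≠ [] ∧ ∃ d l, p₂ e = d :: l ∧ ∃ c ∈ w, P.pt d = P.pt c ∨ P.pt d = P.pt (P.α c))) :
    crM (fun e : {e // S e} => src e.1) (fun e : {e // S e} => tgt e.1) ≤
      (∑ b : Bool, Nat.card {x : P.X // (¬ ∃ c ∈ w, x = P.pt c ∨ x = P.pt (P.α c)) ∧
        ∑ e : {e // S e}, ((if col (src e.1) = b then ((p₁ e.1).tail.map P.pt).count x else 0) +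
          (if col (tgt e.1) = b then ((p₂ e.1).map P.pt).count x else 0)) = 2}) +
      PreDrawing.gr (∑ e : {e // S e}, ((P.route e.1).tail.filter
        (fun d => ∃ c ∈ w, P.pt d = P.pt c ∨ P.pt d = P.pt (P.α c))).length) := by
  set W : P.X → Prop := fun x => ∃ c ∈ w, x = P.pt c ∨ x = P.pt (P.α c) with hWdef
  have hWloc : ∀ v, ¬ W (P.loc v) := by
    rintro v ⟨c, hc, h | h⟩
    · exact (hwl c hc v).1 h.symm
    · exact (hwl c hc v).2 h.symm
  obtain ⟨τ, hτ, hpt⟩ := exists_join P.planar P.α_invol P.pt P.pt_iff w x₀ y₀ hw W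
    (fun x => Iff.rfl)
  -- the tails of the routes
  have htail : ∀ e, S e → (P.route e).tail = (p₁ e).tail ++ p₂ e ∧
      ((p₁ e).map (sh (col (src e))) ++ (p₂ e).map (sh (col (tgt e)))).tail =
        (p₁ e).tail.map (sh (col (src e))) ++ (p₂ e).map (sh (col (tgt e))) := by
    intro e he
    rw [hp e he]
    rcases hcase e he with ⟨h, -⟩ | ⟨h, -⟩
    · rw [h]; simp
    · cases h1 : p₁ e with
      | nil => exact absurd h1 h
      | cons a l => simp
  have hcnt : ∀ (_ : BEq (P.D ⊕ P.D)) (_ : LawfulBEq (P.D ⊕ P.D)) e, S e → ∀ b (d : P.D),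
      ((p₁ e).map (sh (col (src e))) ++ (p₂ e).map (sh (col (tgt e)))).count (sh b d) ≤
        (P.route e).count d := by
    intro _ _ e he b d
    rw [hp e he, List.count_append, List.count_append, count_map_sh, count_map_sh]
    split_ifs <;> omega
  -- the drawing
  let P' : PreDrawing (fun e : {e // S e} => src e.1) (fun e : {e // S e} => tgt e.1) :=
    { D := P.D ⊕ P.D
      X := Option (P.X ⊕ P.X)
      finD := inferInstance
      finX := inferInstance
      σ := τ
      α := Equiv.sumCongr P.α P.α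
      α_invol := by
        intro a
        obtain ⟨b, d, rfl⟩ := exists_sh a
        rw [sumCongr_sh, sumCongr_sh, P.α_invol]
      α_ne := by
        intro a h
        obtain ⟨b, d, rfl⟩ := exists_sh a
        rw [sumCongr_sh, sh_inj] at h
        exact P.α_ne d h.2
      planar := hτ
      pt := ptl P.pt W
      pt_iff := hpt
      loc := fun v => some (sh (col v) (P.loc v))
      loc_inj := by
        intro v v' h
        exact P.loc_inj (sh_inj.1 (Option.some.inj h)).2
      route := fun e => (p₁ e.1).map (sh (col (src e.1))) ++ (p₂ e.1).map (sh (col (tgt e.1)))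
      route_walk := by
        rintro ⟨e, he⟩
        have hv : ∀ v, some (sh (col v) (P.loc v)) = lpt W (col v) (P.loc v) := by
          intro v
          rw [lpt, if_neg (hWloc v)]
        show IsWalk _ _ (some (sh (col (src e)) (P.loc (src e))))
          (some (sh (col (tgt e)) (P.loc (tgt e)))) _
        rw [hv, hv]
        have h0 := P.route_walk e
        rw [hp e he] at h0
        obtain ⟨y, h1, h2⟩ := isWalk_split h0
        rcases hcase e he with ⟨h, h'⟩ | ⟨h, d, l, h3, h4⟩
        · rw [h] at h2 ⊢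
          have h5 : y = P.loc (tgt e) := h2
          subst h5
          rw [List.map_nil, List.append_nil, ← h']
          exact walk_lift W _ h1
        · have hy : W y := by
            rw [h3] at h2
            rw [← h2.1]
            exact h4
          have e1 : lpt W (col (src e)) y = lpt W (col (tgt e)) y := by
            rw [lp_eq_iff]
            exact Or.inl ⟨hy, hy⟩
          refine isWalk_join (walk_lift W _ h1) ?_
          rw [e1]
          exact walk_lift W _ h2
      route_inner := by
        rintro ⟨e, he⟩ d hd v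
        simp only at hd
        rw [(htail e he).2] at hd
        have h1 : ∃ b d₀, d = sh b d₀ ∧ d₀ ∈ (P.route e).tail := by
          rw [List.mem_append, List.mem_map, List.mem_map] at hd
          rcases hd with ⟨d₀, hd₀, rfl⟩ | ⟨d₀, hd₀, rfl⟩
          · exact ⟨_, d₀, rfl, by rw [(htail e he).1]; exact List.mem_append_left _ hd₀⟩
          · exact ⟨_, d₀, rfl, by rw [(htail e he).1]; exact List.mem_append_right _ hd₀⟩
        obtain ⟨b, d₀, rfl, hd₀⟩ := h1
        rw [ptl_sh, lpt]
        split_ifs with h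
        · simp
        · intro h'
          exact P.route_inner e d₀ hd₀ v (sh_inj.1 (Option.some.inj h')).2
      route_use := by
        intro a
        obtain ⟨b, d, rfl⟩ := exists_sh a
        rw [sumCongr_sh]
        refine le_trans ?_ (P.route_use d)
        refine le_trans (Finset.sum_le_sum (fun e _ => ?_))
          (sum_subtype_le S (fun e => (P.route e).count d + (P.route e).count (P.α d)))
        refine Nat.add_le_add (hcnt _ ?_ e.1 e.2 b d) (hcnt _ ?_ e.1 e.2 b (P.α d)) <;>
          infer_instance }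
  -- used darts are not loops
  have hkey : ∀ e, S e → ∀ d ∈ P.route e, P.pt d ≠ P.pt (P.α d) ∧
      ¬ (W (P.pt d) ∧ W (P.pt (P.α d))) := by
    intro e he d hd
    obtain ⟨l₁, l₂, hl⟩ := List.append_of_mem hd
    have hwk := P.route_walk e
    cases l₁ with
    | nil =>
      have h1 : P.pt d = P.loc (src e) := by
        rw [hl] at hwk
        exact hwk.1
      refine ⟨?_, fun h => hWloc (src e) (h1 ▸ h.1)⟩
      cases l₂ with
      | nil =>
        have h2 : P.pt (P.α d) = P.loc (tgt e) := by
          rw [hl] at hwk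
          exact hwk.2
        rw [h1, h2]
        exact fun h => hne e he (P.loc_inj h)
      | cons b l =>
        have h2 : P.pt b = P.pt (P.α d) := by
          rw [hl] at hwk
          exact hwk.2.1
        rw [h1, ← h2]
        refine (P.route_inner e b ?_ (src e)).symm
        rw [hl]; simp
    | cons a l₁ =>
      have hdt : d ∈ (P.route e).tail := by rw [hl]; simp
      cases l₂ with
      | nil =>
        have h2 : P.pt (P.α d) = P.loc (tgt e) := by
          rw [hl] at hwk
          obtain ⟨y, -, h3⟩ := isWalk_split hwk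
          exact h3.2
        refine ⟨?_, fun h => hWloc (tgt e) (h2 ▸ h.2)⟩
        rw [h2]
        exact P.route_inner e d hdt (tgt e)
      | cons b l =>
        have hbt : b ∈ (P.route e).tail := by rw [hl]; simp
        have h2 : P.pt b = P.pt (P.α d) := by
          rw [hl] at hwk
          obtain ⟨y, -, h3⟩ := isWalk_split hwk
          exact h3.2.1
        have h4 : P.pt d ≠ P.pt b := by
          have h5 := hself e he
          rw [hl] at h5
          simp only [List.cons_append, List.tail_cons, List.map_append, List.map_cons] at h5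
          have h6 := (List.nodup_append.1 h5).2.1
          rw [List.nodup_cons] at h6
          intro h7
          exact h6.1 (by rw [h7]; simp)
        refine ⟨by rw [← h2]; exact h4, ?_⟩
        rw [← h2]
        rintro ⟨h5, h6⟩
        exact h4 (by rw [honce e he d hdt b hbt h5 h6])
  have hL : ∀ a, P'.Used a → P'.pt a ≠ P'.pt (P'.α a) := by
    intro a ha
    obtain ⟨b, d, rfl⟩ := exists_sh a
    have hmem : ∀ e, S e → ∀ d, sh b d ∈ (p₁ e).map (sh (col (src e))) ++
        (p₂ e).map (sh (col (tgt e))) → d ∈ P.route e := by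
      intro e he d h
      rw [hp e he]
      rw [List.mem_append, List.mem_map, List.mem_map] at h
      rcases h with ⟨c, hc, h⟩ | ⟨c, hc, h⟩
      · rw [← (sh_inj.1 h).2]; exact List.mem_append_left _ hc
      · rw [← (sh_inj.1 h).2]; exact List.mem_append_right _ hc
    have hd : P.pt d ≠ P.pt (P.α d) ∧ ¬ (W (P.pt d) ∧ W (P.pt (P.α d))) := by
      obtain ⟨⟨e, he⟩, h | h⟩ := ha
      · exact hkey e he d (hmem e he d h)
      · have h' : sh b (P.α d) ∈ (p₁ e).map (sh (col (src e))) ++
            (p₂ e).map (sh (col (tgt e))) := by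
          rw [← sumCongr_sh]; exact h
        have h2 := hkey e he _ (hmem e he _ h')
        rw [P.α_invol] at h2
        exact ⟨h2.1.symm, fun h3 => h2.2 ⟨h3.2, h3.1⟩⟩
    show ptl P.pt W (sh b d) ≠ ptl P.pt W ((Equiv.sumCongr P.α P.α : Perm (P.D ⊕ P.D)) (sh b d))
    rw [sumCongr_sh, ptl_sh, ptl_sh, Ne, lp_eq_iff]
    rintro (h | ⟨-, -, h⟩)
    · exact hd.2 h
    · exact hd.1 h
  refine (P'.crM_le_cost hL).trans (le_of_eq ?_)
  -- the numbers of passes
  let N : Bool → P.X → ℕ := fun b x =>
    ∑ e : {e // S e}, ((if col (src e.1) = b then ((p₁ e.1).tail.map P.pt).count x else 0) +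
          (if col (tgt e.1) = b then ((p₂ e.1).map P.pt).count x else 0))
  have hN : ∀ b x, N b x ≤ 2 := by
    intro b x
    refine le_trans ?_ (hs x)
    refine le_trans (Finset.sum_le_sum (fun e _ => ?_))
      (sum_subtype_le S (fun e => ((P.route e).tail.map P.pt).count x))
    rw [(htail e.1 e.2).1, List.map_append, List.count_append]
    split_ifs <;> omega
  have hnone' : ∀ (_ : BEq (Option (P.X ⊕ P.X))) (_ : LawfulBEq (Option (P.X ⊕ P.X))) e, S e →
      ((((p₁ e).map (sh (col (src e))) ++ (p₂ e).map (sh (col (tgt e)))).tail.map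
        (ptl P.pt W)).count none) = ((P.route e).tail.filter
        (fun d => ∃ c ∈ w, P.pt d = P.pt c ∨ P.pt d = P.pt (P.α c))).length := by
    intro _ _ e he
    rw [(htail e he).2, (htail e he).1, List.map_append, List.count_append,
      List.filter_append, List.length_append,
      count_none P.pt W (fun d => ∃ c ∈ w, P.pt d = P.pt c ∨ P.pt d = P.pt (P.α c))
        (fun d => Iff.rfl),
      count_none P.pt W (fun d => ∃ c ∈ w, P.pt d = P.pt c ∨ P.pt d = P.pt (P.α c))
        (fun d => Iff.rfl)]
  have hnone : P'.passes none = ∑ e : {e // S e}, ((P.route e.1).tail.filter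
        (fun d => ∃ c ∈ w, P.pt d = P.pt c ∨ P.pt d = P.pt (P.α c))).length := by
    unfold PreDrawing.passes
    refine Finset.sum_congr rfl fun e _ => ?_
    refine hnone' _ ?_ e.1 e.2
    infer_instance
  have hsome' : ∀ (_ : BEq (Option (P.X ⊕ P.X))) (_ : LawfulBEq (Option (P.X ⊕ P.X)))
      (_ : BEq P.X) (_ : LawfulBEq P.X) b x, ¬ W x → ∀ e, S e →
      ((((p₁ e).map (sh (col (src e))) ++ (p₂ e).map (sh (col (tgt e)))).tail.map
        (ptl P.pt W)).count (some (sh b x))) =
      ((if col (src e) = b then ((p₁ e).tail.map P.pt).count x else 0) +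
          (if col (tgt e) = b then ((p₂ e).map P.pt).count x else 0)) := by
    intro _ _ _ _ b x hx e he
    rw [(htail e he).2, List.map_append, List.count_append, count_some _ _ _ _ _ hx,
        count_some _ _ _ _ _ hx]
  have hzero' : ∀ (_ : BEq (Option (P.X ⊕ P.X))) (_ : LawfulBEq (Option (P.X ⊕ P.X))) b x,
      W x → ∀ e, S e →
      ((((p₁ e).map (sh (col (src e))) ++ (p₂ e).map (sh (col (tgt e)))).tail.map
        (ptl P.pt W)).count (some (sh b x))) = 0 := by
    intro _ _ b x hx e he
    rw [(htail e he).2, List.map_append, List.count_append, count_some_W _ _ _ _ _ hx,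
        count_some_W _ _ _ _ _ hx]
  have hsome : ∀ b x, P'.passes (some (sh b x)) = if W x then 0 else N b x := by
    intro b x
    unfold PreDrawing.passes
    split_ifs with hx
    · refine Finset.sum_eq_zero fun e _ => ?_
      refine hzero' _ ?_ b x hx e.1 e.2
      infer_instance
    · refine Finset.sum_congr rfl fun e _ => ?_
      refine hsome' _ ?_ _ ?_ b x hx e.1 e.2 <;> infer_instance
  have hcard : ∀ b, Nat.card {x : P.X // (¬ ∃ c ∈ w, x = P.pt c ∨ x = P.pt (P.α c)) ∧
      N b x = 2} = ∑ x : P.X, PreDrawing.gr (P'.passes (some (sh b x))) := by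
    intro b
    rw [Nat.card_eq_fintype_card, Fintype.card_subtype, Finset.card_filter]
    refine Finset.sum_congr rfl fun x _ => ?_
    rw [hsome]
    by_cases hx : W x
    · have h1 : ¬ ((¬ ∃ c ∈ w, x = P.pt c ∨ x = P.pt (P.α c)) ∧ N b x = 2) := fun h => h.1 hx
      rw [if_neg h1, if_pos hx]
      rfl
    · rw [if_neg hx]
      by_cases h2 : N b x = 2
      · have h1 : ((¬ ∃ c ∈ w, x = P.pt c ∨ x = P.pt (P.α c)) ∧ N b x = 2) := ⟨hx, h2⟩
        rw [if_pos h1, h2]
        rfl
      · have h1 : ¬ ((¬ ∃ c ∈ w, x = P.pt c ∨ x = P.pt (P.α c)) ∧ N b x = 2) := fun h => h2 h.2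
        rw [if_neg h1]
        have h3 : N b x ≤ 1 := by
          have := hN b x
          omega
        simp [PreDrawing.gr, h3]
  have hcost : P'.cost PreDrawing.gr = PreDrawing.gr (P'.passes none) +
      (∑ x : P.X, PreDrawing.gr (P'.passes (some (sh true x))) +
        ∑ x : P.X, PreDrawing.gr (P'.passes (some (sh false x)))) := by
    show ∑ x : Option (P.X ⊕ P.X), PreDrawing.gr (P'.passes x) = _
    rw [Fintype.sum_option, Fintype.sum_sum_type]
    rfl
  rw [hcost, Fintype.sum_bool, hnone, ← hcard true, ← hcard false]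
  exact Nat.add_comm _ _

end Helper5.CR
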