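import Pool.Agent.Helper75.CR.St

/-!
# Project CR (MP_265e56_al), module G: the congruence `ρ0`
-/

set_option autoImplicit false

namespace Pool.Agent.Helper13.CR

open Pool.Agent.Helper75.CR Helper1.IM

variable {B : Type}

/-- The substitution `k ↦ w`, all other letters fixed. -/
def up (S : Sgn B) (k : ℕ) (w : Wo B) : ℕ → Wo B := fun l => if l = k then w else [(l, S.o)]

theorem up_ne (S : Sgn B) (k : ℕ) {w : Wo B} (hw : w ≠ []) : ∀ i, up S k w i ≠ [] := by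
  intro i
  unfold up
  split_ifs
  · exact hw
  · simp

theorem sB_up {S : Sgn B} {k : ℕ} (w : Wo B) {s : Wo B} (hk : k ∉ cn s) : sB S (up S k w) s = s := by
  apply sB_fix
  intro i hi
  have h : i ≠ k := by
    rintro rfl
    exact hk hi
  simp [up, h]

theorem sB_up_single {S : Sgn B} (k : ℕ) (w : Wo B) (c : B) : sB S (up S k w) [(k, c)] = S.sg c w := by
  rw [sB_single]
  simp [up]

/-- Replacing the new last letter by a nonempty word. -/
theorem chg {S : Sgn B} {ρ : Pg S} {s t : Wo B} {k : ℕ} {c : B} (hs : k ∉ cn s) (ht : k ∉ cn t)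
    (h : Er ρ (s ++ [(k, c)]) (t ++ [(k, c)])) {z : Wo B} (hz : z ≠ []) : Er ρ (s ++ z) (t ++ z) := by
  obtain ⟨w, hw, hwz⟩ := S.sur c z hz
  have h1 := h.sub (up S k w) (up_ne S k hw)
  rw [sB_append, sB_append, sB_up w hs, sB_up w ht, sB_up_single, hwz] at h1
  exact h1

/-- The relation `ρ0`. -/
def rr {S : Sgn B} (ρ : Pg S) (s t : Wo B) : Prop :=
  (s = [] ∧ t = []) ∨ (s ≠ [] ∧ cn s = cn t ∧ ∀ (k : ℕ) (c : B), k ∉ cn s → Er ρ (s ++ [(k, c)]) (t ++ [(k, c)]))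

theorem rr_refl {S : Sgn B} (ρ : Pg S) (u : Wo B) : rr ρ u u := by
  by_cases hu : u = []
  · exact Or.inl ⟨hu, hu⟩
  · exact Or.inr ⟨hu, rfl, fun k c _ => Er.rfl' ρ (by simp)⟩

theorem rr_symm {S : Sgn B} {ρ : Pg S} {u v : Wo B} (h : rr ρ u v) : rr ρ v u := by
  rcases h with h | ⟨h0, h1, h2⟩
  · exact Or.inl ⟨h.2, h.1⟩
  · exact Or.inr ⟨ne_nil_of_cn h1 h0, h1.symm, fun k c hk => (h2 k c (by rwa [h1])).symm⟩

theorem rr_trans {S : Sgn B} {ρ : Pg S} {u v w : Wo B} (h : rr ρ u v) (h' : rr ρ v w) : rr ρ u w := by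
  rcases h with ⟨h0, h1⟩ | ⟨h0, h1, h2⟩
  · rcases h' with ⟨_, h1'⟩ | ⟨h0', _, _⟩
    · exact Or.inl ⟨h0, h1'⟩
    · exact absurd h1 h0'
  · rcases h' with ⟨h0', _⟩ | ⟨_, h1', h2'⟩
    · exact absurd h0' (ne_nil_of_cn h1 h0)
    · exact Or.inr ⟨h0, h1.trans h1', fun k c hk => (h2 k c hk).trans (h2' k c (by rwa [← h1]))⟩

theorem rr_mul {S : Sgn B} {ρ : Pg S} {u v : Wo B} (a b : Wo B) (h : rr ρ u v) : rr ρ (a ++ u ++ b) (a ++ v ++ b) := by
  rcases h with ⟨h0, h1⟩ | ⟨h0, h1, h2⟩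
  · rw [h0, h1]
    exact rr_refl ρ _
  · refine Or.inr ⟨by simp [h0], by simp [h1], fun k c hk => ?_⟩
    have hk1 : k ∉ cn u := by
      intro hk'
      exact hk (by simp [hk'])
    have hk2 : k ∉ cn v := by rwa [← h1]
    have h3 := (chg hk1 hk2 (h2 k c hk1) (z := b ++ [(k, c)]) (by simp)).mulL a
    simpa [List.append_assoc] using h3

theorem rr_sub {S : Sgn B} {ρ : Pg S} {u v : Wo B} (f : ℕ → Wo B) (hf : ∀ i, f i ≠ []) (h : rr ρ u v) :
    rr ρ (sB S f u) (sB S f v) := by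
  rcases h with ⟨h0, h1⟩ | ⟨h0, h1, h2⟩
  · rw [h0, h1]
    exact rr_refl ρ _
  · refine Or.inr ⟨sB_ne S f hf h0, cn_sB_congr S f h1, fun k c _ => ?_⟩
    obtain ⟨k', hk'⟩ := Infinite.exists_notMem_finset (cn u)
    have hk2 : k' ∉ cn v := by rwa [← h1]
    let f' : ℕ → Wo B := fun l => if l = k' then [(k, S.o)] else f l
    have hf' : ∀ i, f' i ≠ [] := by
      intro i
      simp only [f']
      split_ifs
      · simp
      · exact hf i
    have e : ∀ w : Wo B, k' ∉ cn w → sB S f' w = sB S f w := by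
      intro w hw
      apply sB_congr
      intro i hi
      have h : i ≠ k' := by
        rintro rfl
        exact hw hi
      simp [f', h]
    have h3 := (h2 k' c hk').sub f' hf'
    have e2 : sB S f' [(k', c)] = [(k, c)] := by
      rw [sB_single]
      simp [f', S.lit]
    rw [sB_append, sB_append, e u hk', e v hk2, e2] at h3
    exact h3

/-- The congruence `ρ0`. -/
def rho0 {S : Sgn B} (ρ : Pg S) : Pg S where
  r := rr ρ
  refl' := rr_refl ρ
  symm' := rr_symm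
  trans' := rr_trans
  mul' := rr_mul
  sub' := rr_sub

theorem hG : Helper75.CR.StG := by
  intro B S θ ρ hθ hρ
  refine ⟨rho0 ρ, ?_, ?_, ?_, ?_⟩
  · intro s t hst
    have hc := hθ.cp s t hst
    by_cases hs : s = []
    · refine Or.inl ⟨hs, ?_⟩
      rw [hs, cn_nil] at hc
      exact cn_eq_empty.1 hc.symm
    · refine Or.inr ⟨hs, hc, fun k c _ => ?_⟩
      exact (Er.of hθ.cp (by simp) (θ.mulR [(k, c)] hst)).mono hρ
  · intro s t hst
    rcases hst with ⟨h0, h1⟩ | ⟨_, h1, _⟩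
    · rw [h0, h1]
    · exact h1
  · intro s t k c hs hst hk
    rcases hst with ⟨h0, _⟩ | ⟨_, _, h2⟩
    · exact absurd h0 hs
    · exact h2 k c hk
  · intro s t k c hs hc hk h
    exact Or.inr ⟨hs, hc, fun k' c' _ => chg hk (by rwa [← hc]) h (by simp)⟩

end Pool.Agent.Helper13.CR
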